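import Pool.Agent.W410.KS.CORK2

/-!
KS project, task CORK: correlations of divisor sums, dimension `k`.
-/

set_option autoImplicit false

namespace Pool.Agent.W410.KS

open Finset
open Pool.Agent.H442R2
open Pool.Agent.H442R2.KF
open Pool.Agent.W23.DC
open Pool.Agent.W23.SG
open Pool.Agent.W23.PL
open Pool.Agent.W23.KT
open Pool.Agent.W23.KS
open Pool.Agent.H442R2.BX.TaskEX
open Pool.Agent.H442R2.BX.TaskSV
open Pool.Agent.W249.PL

/-- the exponent -/
def EE (k : ℕ) : ℕ := 2 ^ (4 + 2 * k) + 1 + (4 + 2 * 2 ^ k)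

/-- the constant -/
noncomputable def CC (k M : ℕ) : ℝ :=
  cD k M * (8 * (2 ^ (4 + 2 * k) * 2 ^ (2 ^ (4 + 2 * k)))) +
    (8 * 2 ^ k + 4 ^ k) * 2 ^ (4 + 2 * 2 ^ k) * 2 + 1

theorem CC_pos (k M : ℕ) : 0 < CC k M := by unfold CC; positivity

set_option maxHeartbeats 2000000 in
theorem partA (hRSK : St_RSK) (hGS : BX.St_GS) (k M : ℕ) : ∃ N₀ : ℕ, ∀ N : ℕ, N₀ ≤ N →
    ∀ z D : ℕ,
    (z : ℝ) ≤ (N : ℝ) ^ (1 / 20 : ℝ) → 1 ≤ D → (D : ℝ) ≤ (N : ℝ) ^ (1 / 20 : ℝ) → ∀ lam : ℕ → ℝ,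
    SWs z lam → ∀ S : Finset (ℤ × ℕ), SysK k M N S →
    ∀ (P : Finset ℕ) (y : ℝ), 2 ≤ y → (k : ℝ) ≤ y → (∀ p ∈ P, p.Prime ∧ y ≤ (p : ℝ) ∧ gp S p) →
    ∀ (U : ℝ) (th : ℕ → ℝ), 1 ≤ U → DW P D U th →
    ∀ S' : Finset (ℤ × ℕ), SysK k M N S' → Disjoint S S' → ∀ P' : Finset ℕ,
      (∀ p ∈ P', p.Prime ∧ y ≤ (p : ℝ) ∧ gp S' p) → ∀ th' : ℕ → ℝ, DW P' D U th' →
      |∑' n : ℤ, Wt N n * BX.nuS lam z n * (Ev th D (Fp S n) * Ev th' D (Fp S' n)) -
        N * LF lam z * (hatk k th D * hatk k th' D)| ≤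
        CC k M * U ^ 2 * (N * Real.log N ^ (EE k) / y + 1) := by
  obtain ⟨N₀, hN₀⟩ := cop_bdK
  refine ⟨max N₀ 100, ?_⟩
  intro N hN z D hz hD1 hD lam hlam S hS P y hy hky hP U th hU1 hth S' hS' hdis P' hP' th' hth'
  have hNN₀ : N₀ ≤ N := (le_max_left _ _).trans hN
  have hN100 : 100 ≤ N := (le_max_right _ _).trans hN
  have hN1 : 1 ≤ N := by omega
  have hN3 : 3 ≤ N := by omega
  have hNr : (100 : ℝ) ≤ N := by exact_mod_cast hN100
  have hN0 : (0 : ℝ) < N := by linarith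
  have hy0 : (0 : ℝ) < y := by linarith
  have hU : 0 ≤ U := by linarith
  have hlog : 1 ≤ Real.log N := by
    rw [Real.le_log_iff_exp_le (by linarith)]
    have := Real.exp_one_lt_d9
    linarith
  have hU2 : 0 ≤ U ^ 2 := by positivity
  -- the size of the moduli
  set w : ℝ := (N : ℝ) ^ (1 / 20 : ℝ) with hw
  have hw0 : 0 < w := by rw [hw]; positivity
  have hw20 : w ^ 20 = N := by
    rw [hw, ← Real.rpow_natCast, ← Real.rpow_mul hN0.le]
    norm_num
  have hw1 : 1 ≤ w := by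
    rw [hw]
    exact Real.one_le_rpow (by linarith) (by norm_num)
  have hlogw : Real.log N ≤ 20 * w := by
    have h1 : Real.log N = 20 * Real.log w := by
      rw [← hw20, Real.log_pow]; norm_num
    have h2 := Real.log_le_sub_one_of_pos hw0
    rw [h1]
    linarith
  have hw15 : 20 ≤ w ^ 15 := by
    by_contra hcon
    push Not at hcon
    have h1 : (w ^ 15) ^ 4 < 20 ^ 4 := pow_lt_pow_left₀ hcon (by positivity) (by norm_num)
    have h2 : (w ^ 15) ^ 4 = (N : ℝ) ^ 3 := by rw [← hw20]; ring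
    have h3 : (100 : ℝ) ^ 3 ≤ (N : ℝ) ^ 3 := pow_le_pow_left₀ (by norm_num) hNr 3
    rw [h2] at h1
    norm_num at h1 h3
    linarith
  set X : ℕ := z * z * (D * D) with hX
  have hXr : (X : ℝ) ≤ w ^ 4 := by
    rw [hX]
    push_cast
    calc (z : ℝ) * z * (D * D) ≤ w * w * (w * w) := by gcongr
      _ = w ^ 4 := by ring
  have hXN : (X : ℝ) ≤ N := by
    rw [← hw20]
    exact hXr.trans (pow_le_pow_right₀ hw1 (by norm_num))
  have hDN : (D : ℝ) * D ≤ N := by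
    rw [← hw20]
    calc (D : ℝ) * D ≤ w * w := by gcongr
      _ = w ^ 2 := by ring
      _ ≤ w ^ 20 := pow_le_pow_right₀ hw1 (by norm_num)
  have hXlog : (X : ℝ) * Real.log N ≤ N := by
    calc (X : ℝ) * Real.log N ≤ w ^ 4 * (20 * w) := by gcongr
      _ = 20 * w ^ 5 := by ring
      _ ≤ w ^ 15 * w ^ 5 := by gcongr
      _ = N := by rw [← hw20]; ring
  rw [expandK N z D hN1 lam th th' S S', main_eqK, ← Finset.sum_sub_distrib]
  set Ls : Finset ℕ := P ∪ P' with hLs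
  have hLsP : ∀ l ∈ Ls, l.Prime ∧ y ≤ (l : ℝ) := by
    intro l hl
    rcases mem_union.mp hl with h | h
    · exact ⟨(hP l h).1, (hP l h).2.1⟩
    · exact ⟨(hP' l h).1, (hP' l h).2.1⟩
  set L : Finset ℕ := Ls.filter (fun l : ℕ => (l : ℤ) ∣ DK' S S') with hL
  have hcf : ∀ p, |cf lam th th' p| ≤ U ^ 2 := by
    intro p
    unfold cf
    rw [abs_mul, abs_mul, abs_mul]
    calc |lam p.1.1| * |lam p.1.2| * (|th p.2.1| * |th' p.2.2|) ≤ 1 * 1 * (U * U) := by
          gcongr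
          · exact hlam.sw.bd _
          · exact hlam.sw.bd _
          · exact hth.bd _
          · exact hth'.bd _
      _ = U ^ 2 := by ring
  -- the single terms
  have hterm : ∀ p ∈ idx z D, |cf lam th th' p * SK N S S' (qq p) p.2.1 p.2.2 -
      cf lam th th' p * (kw k p.2.1 * kw k p.2.2 * ((N : ℝ) / (qq p * p.2.1 * p.2.2)))| ≤
      U ^ 2 * (1 / (N : ℝ) ^ 4 + kw k p.2.1 * kw k p.2.2 * Ap N L p +
        N * (kw k p.2.1 * kw k p.2.2 * Bp Ls p)) := by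
    intro p hp
    have hA := Ap_nonneg N L p
    have hB := Bp_nonneg Ls p
    have hk1 := kw_nonneg k p.2.1
    have hk2 := kw_nonneg k p.2.2
    have hkk : 0 ≤ kw k p.2.1 * kw k p.2.2 := mul_nonneg hk1 hk2
    rw [← mul_sub, abs_mul]
    by_cases hz1 : th p.2.1 = 0
    · have : cf lam th th' p = 0 := by unfold cf; rw [hz1]; ring
      rw [this, abs_zero, zero_mul]
      positivity
    by_cases hz2 : th' p.2.2 = 0
    · have : cf lam th th' p = 0 := by unfold cf; rw [hz2]; ring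
      rw [this, abs_zero, zero_mul]
      positivity
    refine mul_le_mul (hcf p) ?_ (abs_nonneg _) hU2
    obtain ⟨hq1, hq2⟩ := qq_bd hp
    obtain ⟨-, -, he, he'⟩ := mem_idx hp
    obtain ⟨sq1, -, pr1⟩ := hth.supp _ hz1
    obtain ⟨sq2, -, pr2⟩ := hth'.supp _ hz2
    obtain ⟨Ω, cΩ, ltΩ, dvΩ⟩ := hRSK k S hS.sys.card p.2.1 he.1 sq1
      fun l hl hld => (hP l (pr1 l hl hld)).2.2
    obtain ⟨Ω', cΩ', ltΩ', dvΩ'⟩ := hRSK k S' hS'.sys.card p.2.2 he'.1 sq2
      fun l hl hld => (hP' l (pr2 l hl hld)).2.2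
    by_cases hc : Nat.Coprime (qq p) p.2.1 ∧ Nat.Coprime (qq p) p.2.2 ∧ Nat.Coprime p.2.1 p.2.2
    · have h1 := hN₀ N hNN₀ S S' (qq p) p.2.1 p.2.2 Ω Ω' ltΩ dvΩ ltΩ' dvΩ' hq1 he.1 he'.1
        hc.1 hc.2.1 hc.2.2 ?_ hN3
      · rw [cΩ, cΩ'] at h1
        have h2 : 0 ≤ (N : ℝ) * (kw k p.2.1 * kw k p.2.2 * Bp Ls p) := by positivity
        have h3 : 0 ≤ kw k p.2.1 * kw k p.2.2 * Ap N L p := by positivity
        have b1 : kw k p.2.1 ≤ D := by
          refine (kw_le he.1 fun l hl hld => ?_).trans (by exact_mod_cast he.2)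
          have := (hP l (pr1 l hl hld)).2.1
          exact_mod_cast hky.trans this
        have b2 : kw k p.2.2 ≤ D := by
          refine (kw_le he'.1 fun l hl hld => ?_).trans (by exact_mod_cast he'.2)
          have := (hP' l (pr2 l hl hld)).2.1
          exact_mod_cast hky.trans this
        have h4 : kw k p.2.1 * kw k p.2.2 * (1 / (N : ℝ) ^ 5) ≤ 1 / (N : ℝ) ^ 4 := by
          have h5 : kw k p.2.1 * kw k p.2.2 ≤ N :=
            (mul_le_mul b1 b2 hk2 (by positivity)).trans hDN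
          calc kw k p.2.1 * kw k p.2.2 * (1 / (N : ℝ) ^ 5) ≤ N * (1 / (N : ℝ) ^ 5) := by gcongr
            _ = 1 / (N : ℝ) ^ 4 := by field_simp
        linarith
      · refine le_trans ?_ hXlog
        have h3 : (qq p : ℝ) * p.2.1 * p.2.2 ≤ X := by
          rw [hX]
          have h4 : qq p * p.2.1 * p.2.2 ≤ z * z * (D * D) := by
            calc qq p * p.2.1 * p.2.2 ≤ z * z * D * D :=
                  Nat.mul_le_mul (Nat.mul_le_mul hq2 he.2) he'.2
              _ = z * z * (D * D) := by ring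
          exact_mod_cast h4
        exact mul_le_mul_of_nonneg_right h3 (by linarith)
    · obtain ⟨l, hl, hl3⟩ := not_cop hc
      -- `l` is in `P ∪ P'`
      have hlP : l ∈ Ls := by
        rcases hl3 with h | h | h
        · exact mem_union_left _ (pr1 l hl h.2)
        · exact mem_union_right _ (pr2 l hl h.2)
        · exact mem_union_left _ (pr1 l hl h.1)
      have hmt : kw k p.2.1 * kw k p.2.2 * ((N : ℝ) / (qq p * p.2.1 * p.2.2)) ≤
          N * (kw k p.2.1 * kw k p.2.2 * Bp Ls p) := by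
        have h1 := inv_le_Bp hlP hl3
        calc kw k p.2.1 * kw k p.2.2 * ((N : ℝ) / (qq p * p.2.1 * p.2.2))
            = N * (kw k p.2.1 * kw k p.2.2 * (1 / (qq p * p.2.1 * p.2.2))) := by
              rw [div_eq_mul_one_div]; ring
          _ ≤ _ := by gcongr
      have hmt0 : 0 ≤ kw k p.2.1 * kw k p.2.2 * ((N : ℝ) / (qq p * p.2.1 * p.2.2)) := by
        positivity
      have hS0 := SK_nonneg N S S' (qq p) p.2.1 p.2.2
      have hSS : SK N S S' (qq p) p.2.1 p.2.2 ≤ kw k p.2.1 * kw k p.2.2 * Ap N L p := by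
        by_cases hsol : ∃ n : ℤ, (qq p : ℤ) ∣ n ∧ (p.2.1 : ℤ) ∣ Fp S n ∧ (p.2.2 : ℤ) ∣ Fp S' n
        · obtain ⟨n, k1, k2, k3⟩ := hsol
          obtain ⟨hM1, hM2⟩ := Mp_bd hp
          have hMN : (Mp p : ℝ) ≤ N := le_trans (by exact_mod_cast hM2) hXN
          have h1 := SK_le hGS N hN1 S S' (qq p) p.2.1 p.2.2 Ω Ω' ltΩ dvΩ ltΩ' dvΩ' hM1 hMN
          rw [cΩ, cΩ'] at h1
          obtain ⟨d1, d2, d3⟩ := dvd_Mp p
          have hlM : l ∣ Mp p := by
            rcases hl3 with h | h | h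
            · exact h.1.trans d1
            · exact h.1.trans d1
            · exact h.1.trans d2
          have hlL : l ∈ L := mem_filter.mpr ⟨hlP, bad_prime hl k1 k2 k3 hl3⟩
          refine h1.trans (mul_le_mul_of_nonneg_left ?_ hkk)
          have h4 := Finset.single_le_sum
            (f := fun l => if l ∣ Mp p then 8 * (N : ℝ) / Mp p else 0) (s := L)
            (fun l _ => by split_ifs <;> positivity) hlL
          simp only [if_pos hlM] at h4
          exact h4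
        · rw [SK_zero N S S' (qq p) p.2.1 p.2.2 hsol]
          positivity
      have h5 : 0 ≤ 1 / (N : ℝ) ^ 4 := by positivity
      have h6 : 0 ≤ kw k p.2.1 * kw k p.2.2 * Ap N L p := by positivity
      rw [abs_le]
      constructor
      · linarith
      · linarith
  refine (Finset.abs_sum_le_sum_abs _ _).trans ?_
  refine (Finset.sum_le_sum hterm).trans ?_
  rw [← Finset.mul_sum, Finset.sum_add_distrib, Finset.sum_add_distrib, ← Finset.mul_sum]
  -- trivial if the index set is empty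
  rcases Nat.eq_zero_or_pos z with hz0 | hz0
  · have : idx z D = ∅ := by rw [hz0]; simp [idx]
    rw [this]
    simp only [Finset.sum_empty, add_zero, mul_zero]
    have := CC_pos k M
    positivity
  have hD0 : 0 < D := hD1
  have hX1 : 1 ≤ X := Nat.mul_pos (Nat.mul_pos hz0 hz0) (Nat.mul_pos hD0 hD0)
  set H := HH X with hH
  have hH0 : 0 ≤ H := HH_nonneg _
  have hHle : H ≤ 2 * Real.log N := by
    have h1 := HH_le X
    have h2 : Real.log X ≤ Real.log N := Real.log_le_log (by exact_mod_cast hX1) hXN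
    linarith
  have hcard : ∑ _p ∈ idx z D, 1 / (N : ℝ) ^ 4 ≤ 1 := by
    rw [Finset.sum_const, nsmul_eq_mul]
    have h1 : (idx z D).card = X := by
      unfold idx
      rw [card_product, card_product, card_product, Nat.card_Icc, Nat.card_Icc]
      simp only [Nat.add_sub_cancel]
      exact hX.symm
    rw [h1, mul_one_div, div_le_one (by positivity)]
    refine hXN.trans ?_
    calc (N : ℝ) = (N : ℝ) ^ 1 := (pow_one _).symm
      _ ≤ (N : ℝ) ^ 4 := pow_le_pow_right₀ (by linarith) (by norm_num)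
  have hLc : (L.card : ℝ) ≤ cD k M * Real.log N :=
    card_LK hN3 Ls (fun p hp => (hLsP p hp).1) hS hS' hdis
  set a₁ : ℕ := 4 + 2 * k with ha₁
  set a₂ : ℕ := 2 ^ a₁ with ha₂
  set a₃ : ℕ := 4 + 2 * 2 ^ k with ha₃
  have hsA : ∑ p ∈ idx z D, kw k p.2.1 * kw k p.2.2 * Ap N L p ≤
      cD k M * Real.log N * (8 * N * (2 ^ a₁ / y * H ^ a₂)) := by
    unfold Ap
    simp only [Finset.mul_sum]
    rw [Finset.sum_comm]
    calc ∑ l ∈ L, ∑ p ∈ idx z D, kw k p.2.1 * kw k p.2.2 *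
          (if l ∣ Mp p then 8 * (N : ℝ) / Mp p else 0)
        ≤ ∑ _l ∈ L, 8 * N * (2 ^ a₁ / y * H ^ a₂) := by
          refine Finset.sum_le_sum fun l hl => ?_
          have hlP := (mem_filter.mp hl).1
          obtain ⟨hlp, hly⟩ := hLsP l hlP
          have h1 := sum_quadK k z D l hlp.one_lt.le
          rw [ta_prime hlp] at h1
          simp only [mul_ite, mul_zero]
          rw [← Finset.sum_filter]
          calc ∑ p ∈ (idx z D).filter (fun p => l ∣ Mp p),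
                kw k p.2.1 * kw k p.2.2 * (8 * (N : ℝ) / Mp p)
              = 8 * N * ∑ p ∈ (idx z D).filter (fun p => l ∣ Mp p),
                  kw k p.2.1 * kw k p.2.2 / (Mp p : ℝ) := by
                rw [Finset.mul_sum]
                exact Finset.sum_congr rfl fun _ _ => by ring
            _ ≤ 8 * N * (((2 : ℕ) : ℝ) ^ a₁ / l * HH (z * z * (D * D)) ^ a₂) := by gcongr
            _ ≤ 8 * N * (2 ^ a₁ / y * H ^ a₂) := by
                rw [← hX, ← hH]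
                push_cast
                gcongr
      _ = L.card * (8 * N * (2 ^ a₁ / y * H ^ a₂)) := by
          rw [Finset.sum_const, nsmul_eq_mul]
      _ ≤ _ := by gcongr
  have hsB : ∑ p ∈ idx z D, kw k p.2.1 * kw k p.2.2 * Bp Ls p ≤
      (8 * 2 ^ k + 4 ^ k) * H ^ a₃ * (2 / y) := by
    unfold Bp
    simp only [Finset.mul_sum]
    rw [Finset.sum_comm]
    calc ∑ l ∈ Ls, ∑ p ∈ idx z D, kw k p.2.1 * kw k p.2.2 * tt3 l p
        ≤ ∑ l ∈ Ls, (8 * 2 ^ k + 4 ^ k) * H ^ a₃ * (1 / (l : ℝ) ^ 2) := by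
          refine Finset.sum_le_sum fun l hl => ?_
          have h1 := sum_tk3 k z D l hz0 hD0 (hLsP l hl).1
          simp only [tk3_eq] at h1
          rw [← hX, ← hH] at h1
          rwa [mul_one_div]
      _ = (8 * 2 ^ k + 4 ^ k) * H ^ a₃ * ∑ l ∈ Ls, 1 / (l : ℝ) ^ 2 := by rw [Finset.mul_sum]
      _ ≤ (8 * 2 ^ k + 4 ^ k) * H ^ a₃ * (2 / y) := by
          have := sum_inv_sq Ls y hy fun p hp => (hLsP p hp).2
          gcongr
  set ℓ := Real.log N with hℓ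
  have hHa : H ^ a₂ ≤ (2 * ℓ) ^ a₂ := pow_le_pow_left₀ hH0 hHle _
  have hHb : H ^ a₃ ≤ (2 * ℓ) ^ a₃ := pow_le_pow_left₀ hH0 hHle _
  have hEE : EE k = a₂ + 1 + a₃ := rfl
  have hCC : CC k M = cD k M * (8 * (2 ^ a₁ * 2 ^ a₂)) + (8 * 2 ^ k + 4 ^ k) * 2 ^ a₃ * 2 + 1 :=
    rfl
  have hl1 : ℓ ^ (a₂ + 1) ≤ ℓ ^ (EE k) := pow_le_pow_right₀ hlog (by
    rw [hEE]; exact Nat.le_add_right _ _)
  have hl2 : ℓ ^ a₃ ≤ ℓ ^ (EE k) := pow_le_pow_right₀ hlog (by
    rw [hEE]; exact Nat.le_add_left _ _)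
  clear_value a₃ a₂ a₁
  have hfin : ∑ _p ∈ idx z D, 1 / (N : ℝ) ^ 4 +
      ∑ p ∈ idx z D, kw k p.2.1 * kw k p.2.2 * Ap N L p +
      N * ∑ p ∈ idx z D, kw k p.2.1 * kw k p.2.2 * Bp Ls p ≤
        CC k M * (N * ℓ ^ (EE k) / y + 1) := by
    have h1 : cD k M * ℓ * (8 * N * (2 ^ a₁ / y * H ^ a₂)) ≤
        cD k M * (8 * (2 ^ a₁ * 2 ^ a₂)) * (N * ℓ ^ (EE k) / y) := by
      calc cD k M * ℓ * (8 * N * (2 ^ a₁ / y * H ^ a₂))
          ≤ cD k M * ℓ * (8 * N * (2 ^ a₁ / y * (2 * ℓ) ^ a₂)) := by gcongr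
        _ = cD k M * (8 * (2 ^ a₁ * 2 ^ a₂)) * (N * ℓ ^ (a₂ + 1) / y) := by
            rw [mul_pow, pow_succ ℓ a₂]; ring
        _ ≤ _ := by gcongr
    have h2 : (N : ℝ) * ((8 * 2 ^ k + 4 ^ k) * H ^ a₃ * (2 / y)) ≤
        (8 * 2 ^ k + 4 ^ k) * 2 ^ a₃ * 2 * (N * ℓ ^ (EE k) / y) := by
      calc (N : ℝ) * ((8 * 2 ^ k + 4 ^ k) * H ^ a₃ * (2 / y))
          ≤ N * ((8 * 2 ^ k + 4 ^ k) * (2 * ℓ) ^ a₃ * (2 / y)) := by gcongr
        _ = (8 * 2 ^ k + 4 ^ k) * 2 ^ a₃ * 2 * (N * ℓ ^ a₃ / y) := by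
            rw [mul_pow]; ring
        _ ≤ _ := by gcongr
    have h3 : (N : ℝ) * ∑ p ∈ idx z D, kw k p.2.1 * kw k p.2.2 * Bp Ls p ≤
        N * ((8 * 2 ^ k + 4 ^ k) * H ^ a₃ * (2 / y)) := by gcongr
    have h4 : 0 ≤ (N : ℝ) * ℓ ^ (EE k) / y := by positivity
    have h5 : (0 : ℝ) ≤ cD k M * (8 * (2 ^ a₁ * 2 ^ a₂)) := by positivity
    have h6 : (0 : ℝ) ≤ (8 * 2 ^ k + 4 ^ k) * 2 ^ a₃ * 2 := by positivity
    rw [hCC]
    generalize (cD k M : ℝ) * (8 * (2 ^ a₁ * 2 ^ a₂)) = c₁ at h1 h5 ⊢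
    generalize (8 * 2 ^ k + 4 ^ k : ℝ) * 2 ^ a₃ * 2 = c₂ at h2 h6 ⊢
    generalize (N : ℝ) * ℓ ^ (EE k) / y = T at h1 h2 h4 ⊢
    have e0 : (c₁ + c₂ + 1) * (T + 1) = c₁ * T + c₂ * T + T + c₁ + c₂ + 1 := by ring
    rw [e0]
    linarith [hcard, hsA.trans h1, h3.trans h2]
  calc U ^ 2 * (∑ _p ∈ idx z D, 1 / (N : ℝ) ^ 4 +
      ∑ p ∈ idx z D, kw k p.2.1 * kw k p.2.2 * Ap N L p +
      N * ∑ p ∈ idx z D, kw k p.2.1 * kw k p.2.2 * Bp Ls p)
      ≤ U ^ 2 * (CC k M * (N * ℓ ^ (EE k) / y + 1)) := by gcongr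
    _ = CC k M * U ^ 2 * (N * ℓ ^ (EE k) / y + 1) := by ring

/-- a second system, disjoint from `S` -/
theorem exists_sys {k M N : ℕ} (hM : 1 ≤ M) (hN : 1 ≤ N) (hkN : 2 * k ≤ N)
    (S : Finset (ℤ × ℕ)) (hS : SysK k M N S) :
    ∃ S' : Finset (ℤ × ℕ), SysK k M N S' ∧ Disjoint S S' := by
  classical
  set T : Finset (ℤ × ℕ) := (Icc 1 (2 * k)).image (fun a : ℕ => ((a : ℤ), 1)) with hT
  have hTc : T.card = 2 * k := by
    rw [hT, Finset.card_image_of_injective]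
    · rw [Nat.card_Icc]; omega
    · intro a b hab
      have := congrArg Prod.fst hab
      simp only at this
      exact_mod_cast this
  have h1 : k ≤ (T \ S).card := by
    have := Finset.le_card_sdiff S T
    rw [hTc, hS.sys.card] at this
    omega
  obtain ⟨S', hS'1, hS'2⟩ := Finset.exists_subset_card_eq h1
  refine ⟨S', ⟨⟨hS'2, fun L hL => ?_⟩, fun L hL => ?_⟩, ?_⟩
  · obtain ⟨a, ha, rfl⟩ := mem_image.mp (mem_sdiff.mp (hS'1 hL)).1
    obtain ⟨ha1, ha2⟩ := mem_Icc.mp ha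
    have hN1 : (1 : ℝ) ≤ N := by exact_mod_cast hN
    have hNM : (N : ℝ) ≤ (N : ℝ) ^ M := by
      calc (N : ℝ) = (N : ℝ) ^ 1 := (pow_one _).symm
        _ ≤ (N : ℝ) ^ M := pow_le_pow_right₀ hN1 hM
    refine ⟨?_, le_rfl, ?_, ?_⟩
    · have h2 : (a : ℝ) ≤ N := by exact_mod_cast ha2.trans hkN
      have h3 : |(((a : ℕ) : ℤ) : ℝ)| = a := by
        rw [Int.cast_natCast]
        exact abs_of_nonneg (by positivity)
      simp only
      rw [h3]
      exact h2.trans hNM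
    · simp only [Nat.cast_one]
      exact hN1.trans hNM
    · simp
  · obtain ⟨a, ha, rfl⟩ := mem_image.mp (mem_sdiff.mp (hS'1 hL)).1
    obtain ⟨ha1, ha2⟩ := mem_Icc.mp ha
    simp only
    omega
  · exact Finset.disjoint_left.mpr fun L hL hL' => (mem_sdiff.mp (hS'1 hL')).2 hL

theorem CORK (hRSK : St_RSK) (hGS : BX.St_GS) : St_CORK := by
  classical
  intro k M hk hM
  obtain ⟨N₀, hA⟩ := partA hRSK hGS k M
  refine ⟨CC k M, EE k, max N₀ (2 * k + 1), CC_pos k M, ?_⟩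
  intro N hN z D hz hD1 hD lam hlam S hS P y hy hky hP U th hU1 hth
  have hNN₀ : N₀ ≤ N := (le_max_left _ _).trans hN
  have hNk : 2 * k + 1 ≤ N := (le_max_right _ _).trans hN
  have hAN := hA N hNN₀ z D hz hD1 hD lam hlam S hS P y hy hky hP U th hU1 hth
  refine ⟨fun S' hS' hd P' hP' th' hth' => hAN S' hS' hd P' hP' th' hth', ?_⟩
  obtain ⟨S', hS', hd⟩ := exists_sys (k := k) (M := M) (N := N) hM (by omega) (by omega) S hS
  have h1 := hAN S' hS' hd ∅ (fun p hp => absurd hp (Finset.notMem_empty _))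
    (fun e => if e = 1 then 1 else 0) ⟨fun e => ?_, fun e he => ?_⟩
  · have hEv : ∀ m : ℤ, Ev (fun e => if e = 1 then 1 else 0) D m = 1 := by
      intro m
      unfold Ev
      rw [Finset.sum_eq_single 1]
      · simp
      · intro b _ hb
        simp [hb]
      · intro h
        exact absurd (mem_Icc.mpr ⟨le_rfl, hD1⟩) h
    have hhat : hatk k (fun e => if e = 1 then 1 else 0) D = 1 := by
      unfold hatk
      rw [Finset.sum_eq_single 1]
      · simp [kw]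
      · intro b _ hb
        simp [hb]
      · intro h
        exact absurd (mem_Icc.mpr ⟨le_rfl, hD1⟩) h
    simp only [hEv, hhat, mul_one] at h1
    exact h1
  · split_ifs
    · rw [abs_one]; exact hU1
    · rw [abs_zero]; linarith
  · have he1 : e = 1 := by
      by_contra h
      exact he (if_neg h)
    subst he1
    exact ⟨squarefree_one, hD1, fun p hp hpd => absurd (Nat.dvd_one.mp hpd) hp.one_lt.ne'⟩

end Pool.Agent.W410.KS
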