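import Pool.Agent.W23.KS.Defs
import Pool.Agent.W249.PL.COR

/-!
KS project, task CORK, part 1: expansion and the single terms.
-/

set_option autoImplicit false

namespace Pool.Agent.W410.KS

open Finset
open Pool.Agent.H442R2
open Pool.Agent.H442R2.KF
open Pool.Agent.W23.DC
open Pool.Agent.W23.SG
open Pool.Agent.W23.PL
open Pool.Agent.W23.KT
open Pool.Agent.W23.KS
open Pool.Agent.H442R2.BX.TaskEX
open Pool.Agent.H442R2.BX.TaskSV
open Pool.Agent.W249.PL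

/-- `∑' Wt 1_{q | n} 1_{e | F(n)} 1_{e' | F'(n)}` -/
noncomputable def SK (N : ℕ) (S S' : Finset (ℤ × ℕ)) (q e e' : ℕ) : ℝ :=
  ∑' n : ℤ, Wt N n * (II q n * II e (Fp S n) * II e' (Fp S' n))

theorem hasSum_SK (N : ℕ) (hN : 1 ≤ N) (S S' : Finset (ℤ × ℕ)) (q e e' : ℕ) :
    HasSum (fun n : ℤ => Wt N n * (II q n * II e (Fp S n) * II e' (Fp S' n)))
      (SK N S S' q e e') := by
  have h1 : Summable (fun n : ℤ => Wt N n * (II q n * II e (Fp S n) * II e' (Fp S' n))) := by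
    refine summable_bd N hN _ 1 fun n => ?_
    rw [abs_mul, abs_mul]
    have k1 := II_abs q n
    have k2 := II_abs e (Fp S n)
    have k3 := II_abs e' (Fp S' n)
    calc |II q n| * |II e (Fp S n)| * |II e' (Fp S' n)| ≤ 1 * 1 * 1 := by gcongr
      _ = 1 := by norm_num
  exact h1.hasSum

theorem expandK (N z D : ℕ) (hN : 1 ≤ N) (lam th th' : ℕ → ℝ) (S S' : Finset (ℤ × ℕ)) :
    ∑' n : ℤ, Wt N n * BX.nuS lam z n * (Ev th D (Fp S n) * Ev th' D (Fp S' n)) =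
      ∑ p ∈ idx z D, cf lam th th' p * SK N S S' (qq p) p.2.1 p.2.2 := by
  have h1 := hasSum_sum (s := idx z D)
    (f := fun p (n : ℤ) => cf lam th th' p *
      (Wt N n * (II (qq p) n * II p.2.1 (Fp S n) * II p.2.2 (Fp S' n))))
    (a := fun p => cf lam th th' p * SK N S S' (qq p) p.2.1 p.2.2)
    (fun p _ => (hasSum_SK N hN S S' (qq p) p.2.1 p.2.2).mul_left _)
  rw [← h1.tsum_eq]
  refine tsum_congr fun n => ?_
  have h2 : BX.nuS lam z n = ∑ x ∈ Icc 1 z ×ˢ Icc 1 z,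
      lam x.1 * lam x.2 * II (Nat.lcm x.1 x.2) n := by
    rw [nuS_eq, Finset.sum_product]
  have h3 : Ev th D (Fp S n) * Ev th' D (Fp S' n) = ∑ x ∈ Icc 1 D ×ˢ Icc 1 D,
      (th x.1 * II x.1 (Fp S n)) * (th' x.2 * II x.2 (Fp S' n)) := by
    rw [Ev_eq, Ev_eq, Finset.sum_mul_sum, Finset.sum_product]
  rw [h2, h3, mul_assoc, Finset.sum_mul_sum, Finset.mul_sum]
  unfold idx
  rw [Finset.sum_product (s := Icc 1 z ×ˢ Icc 1 z)]
  refine Finset.sum_congr rfl fun x _ => ?_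
  rw [Finset.mul_sum]
  refine Finset.sum_congr rfl fun y _ => ?_
  unfold cf qq
  ring

theorem main_eqK (N z D k : ℕ) (lam th th' : ℕ → ℝ) :
    (N : ℝ) * LF lam z * (hatk k th D * hatk k th' D) =
      ∑ p ∈ idx z D, cf lam th th' p *
        (kw k p.2.1 * kw k p.2.2 * ((N : ℝ) / (qq p * p.2.1 * p.2.2))) := by
  have h2 : LF lam z = ∑ x ∈ Icc 1 z ×ˢ Icc 1 z,
      lam x.1 * lam x.2 / (Nat.lcm x.1 x.2 : ℝ) := by
    unfold LF
    rw [Finset.sum_product]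
  have h3 : hatk k th D * hatk k th' D = ∑ x ∈ Icc 1 D ×ˢ Icc 1 D,
      (th x.1 * kw k x.1 / x.1) * (th' x.2 * kw k x.2 / x.2) := by
    unfold hatk
    rw [Finset.sum_mul_sum, Finset.sum_product]
  rw [h2, h3, mul_assoc, Finset.sum_mul_sum, Finset.mul_sum]
  unfold idx
  rw [Finset.sum_product (s := Icc 1 z ×ˢ Icc 1 z)]
  refine Finset.sum_congr rfl fun x _ => ?_
  rw [Finset.mul_sum]
  refine Finset.sum_congr rfl fun y _ => ?_
  unfold cf qq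
  simp only [div_eq_mul_inv, mul_inv]
  ring

/-- the indicator of the classes -/
theorem II_sum {e : ℕ} (Ω : Finset ℕ) (h1 : ∀ s ∈ Ω, s < e) (m n : ℤ)
    (h2 : (e : ℤ) ∣ m ↔ ∃ s ∈ Ω, (e : ℤ) ∣ n - s) :
    II e m = ∑ s ∈ Ω, II e (n - s) := by
  by_cases h : ∃ s ∈ Ω, (e : ℤ) ∣ n - s
  · obtain ⟨s, hs, hsd⟩ := h
    rw [Finset.sum_eq_single s]
    · have e1 : II e m = 1 := if_pos (h2.mpr ⟨s, hs, hsd⟩)
      have e2 : II e (n - s) = 1 := if_pos hsd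
      rw [e1, e2]
    · intro t ht hts
      refine if_neg fun htd => hts ?_
      have h3 : (e : ℤ) ∣ (s : ℤ) - t := by
        have := dvd_sub htd hsd
        have e0 : n - (t : ℤ) - (n - s) = s - t := by ring
        rwa [e0] at this
      have h4 := Int.eq_zero_of_abs_lt_dvd h3 (by
        have := h1 s hs
        have := h1 t ht
        rw [abs_lt]
        constructor <;> omega)
      omega
    · intro h; exact absurd hs h
  · have e1 : II e m = 0 := if_neg fun hm => h (h2.mp hm)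
    rw [e1]
    symm
    refine Finset.sum_eq_zero fun s hs => if_neg fun hd => h ⟨s, hs, hd⟩

theorem SK_eq (N : ℕ) (hN : 1 ≤ N) (S S' : Finset (ℤ × ℕ)) (q e e' : ℕ) (Ω Ω' : Finset ℕ)
    (h1 : ∀ s ∈ Ω, s < e) (h2 : ∀ n : ℤ, (e : ℤ) ∣ Fp S n ↔ ∃ s ∈ Ω, (e : ℤ) ∣ n - s)
    (h1' : ∀ s ∈ Ω', s < e') (h2' : ∀ n : ℤ, (e' : ℤ) ∣ Fp S' n ↔ ∃ s ∈ Ω', (e' : ℤ) ∣ n - s) :
    SK N S S' q e e' = ∑ x ∈ Ω ×ˢ Ω', BX.SE N x.1 x.2 q e e' := by
  have h0 : ∀ x ∈ Ω ×ˢ Ω', HasSum (fun n : ℤ => Wt N n *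
      (II q n * II e (n - (x.1 : ℤ)) * II e' (n - (x.2 : ℤ)))) (BX.SE N x.1 x.2 q e e') :=
    fun x _ => hasSum_SE N hN x.1 x.2 q e e'
  have h3 := hasSum_sum h0
  rw [← h3.tsum_eq]
  unfold SK
  refine tsum_congr fun n => ?_
  rw [II_sum Ω h1 (Fp S n) n (h2 n), II_sum Ω' h1' (Fp S' n) n (h2' n), mul_assoc (II q n),
    Finset.sum_mul_sum, ← Finset.sum_product', Finset.mul_sum, Finset.mul_sum]
  refine Finset.sum_congr rfl fun x _ => ?_
  ring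

/-- `k^ω(e) ≤ e` if all prime factors are at least `k` -/
theorem kw_le {k e : ℕ} (he : 1 ≤ e) (h : ∀ p : ℕ, p.Prime → p ∣ e → k ≤ p) :
    kw k e ≤ e := by
  unfold kw
  have h1 : k ^ e.primeFactors.card ≤ ∏ p ∈ e.primeFactors, p := by
    rw [← Finset.prod_const]
    exact Finset.prod_le_prod' fun p hp => h p (Nat.prime_of_mem_primeFactors hp)
      (Nat.dvd_of_mem_primeFactors hp)
  have h2 : ∏ p ∈ e.primeFactors, p ≤ e := Nat.le_of_dvd he (Nat.prod_primeFactors_dvd e)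
  exact_mod_cast h1.trans h2

theorem kw_nonneg (k e : ℕ) : 0 ≤ kw k e := by unfold kw; positivity

/-- `k^ω(e) ≤ τ(e)^k` -/
theorem kw_le_ta (k : ℕ) {e : ℕ} (he : 1 ≤ e) : kw k e ≤ (ta e : ℝ) ^ k := by
  have h1 : 2 ^ e.primeFactors.card ≤ ta e := by
    unfold ta
    have h2 : (e.primeFactors.powerset.image (fun s => ∏ p ∈ s, p)) ⊆ e.divisors := by
      intro m hm
      obtain ⟨s, hs, rfl⟩ := mem_image.mp hm
      rw [Nat.mem_divisors]
      refine ⟨(Finset.prod_dvd_prod_of_subset _ _ _ (mem_powerset.mp hs)).trans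
        (Nat.prod_primeFactors_dvd e), by omega⟩
    calc 2 ^ e.primeFactors.card = e.primeFactors.powerset.card := (card_powerset _).symm
      _ = (e.primeFactors.powerset.image (fun s => ∏ p ∈ s, p)).card := by
          rw [Finset.card_image_of_injOn]
          intro s hs t ht hst
          have hs' := mem_powerset.mp (mem_coe.mp hs)
          have ht' := mem_powerset.mp (mem_coe.mp ht)
          have e1 := Nat.primeFactors_prod (s := s) fun p hp =>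
            Nat.prime_of_mem_primeFactors (hs' hp)
          have e2 := Nat.primeFactors_prod (s := t) fun p hp =>
            Nat.prime_of_mem_primeFactors (ht' hp)
          simp only at hst
          rw [← e1, ← e2, hst]
      _ ≤ e.divisors.card := Finset.card_le_card h2
  have h3 : k ≤ 2 ^ k := (Nat.lt_two_pow_self).le
  unfold kw
  calc (k : ℝ) ^ e.primeFactors.card ≤ ((2 : ℝ) ^ k) ^ e.primeFactors.card := by
        gcongr
        exact_mod_cast h3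
    _ = ((2 : ℝ) ^ e.primeFactors.card) ^ k := by rw [← pow_mul, ← pow_mul, mul_comm]
    _ ≤ (ta e : ℝ) ^ k := by
        gcongr
        exact_mod_cast h1

theorem ta_dvd {e m : ℕ} (hm : 1 ≤ m) (h : e ∣ m) : ta e ≤ ta m :=
  Finset.card_le_card (Nat.divisors_subset_of_dvd (by omega) h)

/-- weighted version of `fib_sum` -/
theorem fib_sum' {ι : Type*} (S : Finset ι) (g : ι → ℕ) (w : ι → ℝ) (k k' X l : ℕ) (hl : 1 ≤ l)
    (hg : ∀ p ∈ S, 1 ≤ g p ∧ g p ≤ X ∧ l ∣ g p) (hw : ∀ p ∈ S, w p ≤ (ta (g p) : ℝ) ^ k')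
    (hc : ∀ M, 1 ≤ M → (S.filter (fun p => g p = M)).card ≤ ta M ^ k) :
    ∑ p ∈ S, w p / (g p : ℝ) ≤ (ta l : ℝ) ^ (k + k') / l * HH X ^ (2 ^ (k + k')) := by
  refine le_trans ?_ (ta_sum_dvd (k + k') X l hl)
  rw [← Finset.sum_fiberwise_of_maps_to (s := S) (t := (Icc 1 X).filter (fun m => l ∣ m))
    (g := g) (fun p hp => mem_filter.mpr ⟨mem_Icc.mpr ⟨(hg p hp).1, (hg p hp).2.1⟩,
      (hg p hp).2.2⟩)]
  refine Finset.sum_le_sum fun M hM => ?_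
  have hM1 : 1 ≤ M := (mem_Icc.mp (mem_filter.mp hM).1).1
  calc ∑ p ∈ S.filter (fun p => g p = M), w p / (g p : ℝ)
      ≤ ∑ p ∈ S.filter (fun p => g p = M), (ta M : ℝ) ^ k' / (M : ℝ) := by
        refine Finset.sum_le_sum fun p hp => ?_
        have h1 := hw p (mem_filter.mp hp).1
        rw [(mem_filter.mp hp).2] at h1 ⊢
        gcongr
    _ = ((S.filter (fun p => g p = M)).card : ℝ) * ((ta M : ℝ) ^ k' / M) := by
        rw [Finset.sum_const, nsmul_eq_mul]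
    _ ≤ (ta M : ℝ) ^ k * ((ta M : ℝ) ^ k' / M) := by
        gcongr
        exact_mod_cast hc M hM1
    _ = _ := by rw [pow_add]; ring

/-- the sum over the quadruples with `l ∣ M`, with weights -/
theorem sum_quadK (k z D l : ℕ) (hl : 1 ≤ l) :
    ∑ p ∈ (idx z D).filter (fun p => l ∣ Mp p), (kw k p.2.1 * kw k p.2.2) / (Mp p : ℝ) ≤
      (ta l : ℝ) ^ (4 + 2 * k) / l * HH (z * z * (D * D)) ^ (2 ^ (4 + 2 * k)) := by
  refine fib_sum' _ Mp _ 4 (2 * k) (z * z * (D * D)) l hl ?_ ?_ ?_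
  · intro p hp
    obtain ⟨h1, h2⟩ := mem_filter.mp hp
    exact ⟨(Mp_bd h1).1, (Mp_bd h1).2, h2⟩
  · intro p hp
    obtain ⟨h1, h2⟩ := mem_filter.mp hp
    obtain ⟨-, -, h3, h4⟩ := mem_idx h1
    have hM := (Mp_bd h1).1
    obtain ⟨-, d2, d3⟩ := dvd_Mp p
    have a1 : kw k p.2.1 ≤ (ta (Mp p) : ℝ) ^ k := (kw_le_ta k h3.1).trans (by
      gcongr; exact_mod_cast ta_dvd hM d2)
    have a2 : kw k p.2.2 ≤ (ta (Mp p) : ℝ) ^ k := (kw_le_ta k h4.1).trans (by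
      gcongr; exact_mod_cast ta_dvd hM d3)
    calc kw k p.2.1 * kw k p.2.2 ≤ (ta (Mp p) : ℝ) ^ k * (ta (Mp p) : ℝ) ^ k :=
          mul_le_mul a1 a2 (kw_nonneg _ _) (by positivity)
      _ = _ := by rw [← pow_add]; congr 1; ring
  · intro M hM
    calc _ ≤ ((M.divisors ×ˢ M.divisors) ×ˢ (M.divisors ×ˢ M.divisors)).card := by
          refine Finset.card_le_card fun p hp => ?_
          have h9 := (mem_filter.mp hp).2
          obtain ⟨k1, k2, k3⟩ := dvd_Mp p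
          rw [h9] at k1 k2 k3
          have k4 : p.1.1 ∣ M := (Nat.dvd_lcm_left _ _).trans k1
          have k5 : p.1.2 ∣ M := (Nat.dvd_lcm_right _ _).trans k1
          have hM0 : M ≠ 0 := by omega
          exact mem_product.mpr ⟨mem_product.mpr ⟨Nat.mem_divisors.mpr ⟨k4, hM0⟩,
            Nat.mem_divisors.mpr ⟨k5, hM0⟩⟩, mem_product.mpr ⟨Nat.mem_divisors.mpr ⟨k2, hM0⟩,
            Nat.mem_divisors.mpr ⟨k3, hM0⟩⟩⟩
      _ = ta M ^ 4 := by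
          rw [card_product, card_product]
          show ta M * ta M * (ta M * ta M) = _
          ring

/-- the three terms -/
noncomputable def tk3 (k l : ℕ) (p : (ℕ × ℕ) × (ℕ × ℕ)) : ℝ :=
  dv l (qq p) * ((kw k p.2.1 * dv l p.2.1) * (kw k p.2.2 * (1 / (p.2.2 : ℝ)))) +
    dv l (qq p) * ((kw k p.2.1 * (1 / (p.2.1 : ℝ))) * (kw k p.2.2 * dv l p.2.2)) +
    (1 / (qq p : ℝ)) * ((kw k p.2.1 * dv l p.2.1) * (kw k p.2.2 * dv l p.2.2))

theorem tk3_eq (k l : ℕ) (p : (ℕ × ℕ) × (ℕ × ℕ)) :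
    tk3 k l p = kw k p.2.1 * kw k p.2.2 * tt3 l p := by
  unfold tk3 tt3
  ring

theorem sum_tk3 (k z D l : ℕ) (hz : 1 ≤ z) (hD : 1 ≤ D) (hl : l.Prime) :
    ∑ p ∈ idx z D, tk3 k l p ≤
      (8 * 2 ^ k + 4 ^ k) * HH (z * z * (D * D)) ^ (4 + 2 * 2 ^ k) / (l : ℝ) ^ 2 := by
  set H := HH (z * z * (D * D)) with hH
  have hH0 : 0 ≤ H := HH_nonneg _
  have hl0 : (0 : ℝ) < l := by exact_mod_cast hl.pos
  have hX1 : z * z ≤ z * z * (D * D) := Nat.le_mul_of_pos_right _ (Nat.mul_pos hD hD)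
  have hX2 : D ≤ z * z * (D * D) := by
    calc D ≤ D * D := Nat.le_mul_of_pos_right _ hD
      _ ≤ z * z * (D * D) := Nat.le_mul_of_pos_left _ (Nat.mul_pos hz hz)
  have hHD : HH D ≤ H := HH_mono hX2
  have hHD0 : 0 ≤ HH D := HH_nonneg _
  have hA : ∑ x ∈ Icc 1 z ×ˢ Icc 1 z, dv l (Nat.lcm x.1 x.2) ≤ 4 / l * H ^ 4 := by
    have h := sum_pair z (z * z * (D * D)) l hX1 hl.one_lt.le
    rw [ta_prime hl, Finset.sum_filter] at h
    unfold dv
    refine h.trans (le_of_eq ?_)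
    rw [← hH]
    norm_num
  have hA0 : 0 ≤ ∑ x ∈ Icc 1 z ×ˢ Icc 1 z, dv l (Nat.lcm x.1 x.2) :=
    Finset.sum_nonneg fun _ _ => dv_nonneg _ _
  have hA' : ∑ x ∈ Icc 1 z ×ˢ Icc 1 z, 1 / (Nat.lcm x.1 x.2 : ℝ) ≤ H ^ 4 := by
    have h := sum_pair z (z * z * (D * D)) 1 hX1 le_rfl
    rw [ta_one, Finset.sum_filter] at h
    have h2 : ∀ x : ℕ × ℕ, (if 1 ∣ Nat.lcm x.1 x.2 then 1 / (Nat.lcm x.1 x.2 : ℝ) else 0) =
        1 / (Nat.lcm x.1 x.2 : ℝ) := fun x => if_pos (one_dvd _)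
    simp only [h2] at h
    refine h.trans (le_of_eq ?_)
    norm_num
    rfl
  have hA'0 : 0 ≤ ∑ x ∈ Icc 1 z ×ˢ Icc 1 z, 1 / (Nat.lcm x.1 x.2 : ℝ) :=
    Finset.sum_nonneg fun _ _ => by positivity
  have hB : ∑ e ∈ Icc 1 D, kw k e * dv l e ≤ 2 ^ k / l * H ^ (2 ^ k) := by
    have h := ta_sum_dvd k D l hl.one_lt.le
    rw [ta_prime hl, Finset.sum_filter] at h
    calc ∑ e ∈ Icc 1 D, kw k e * dv l e
        ≤ ∑ e ∈ Icc 1 D, (if l ∣ e then (ta e : ℝ) ^ k / e else 0) := by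
          refine Finset.sum_le_sum fun e he => ?_
          have h1 := kw_le_ta k (mem_Icc.mp he).1
          unfold dv
          split_ifs
          · rw [mul_one_div]
            gcongr
          · rw [mul_zero]
      _ ≤ _ := h
      _ ≤ 2 ^ k / l * H ^ (2 ^ k) := by
          push_cast
          gcongr
  have hB0 : 0 ≤ ∑ e ∈ Icc 1 D, kw k e * dv l e :=
    Finset.sum_nonneg fun _ _ => mul_nonneg (kw_nonneg _ _) (dv_nonneg _ _)
  have hC : ∑ e ∈ Icc 1 D, kw k e * (1 / (e : ℝ)) ≤ H ^ (2 ^ k) := by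
    have h := ta_sum k D
    calc ∑ e ∈ Icc 1 D, kw k e * (1 / (e : ℝ)) ≤ ∑ e ∈ Icc 1 D, (ta e : ℝ) ^ k / e := by
          refine Finset.sum_le_sum fun e he => ?_
          have h1 := kw_le_ta k (mem_Icc.mp he).1
          rw [mul_one_div]
          gcongr
      _ ≤ _ := h
      _ ≤ H ^ (2 ^ k) := by gcongr
  have hC0 : 0 ≤ ∑ e ∈ Icc 1 D, kw k e * (1 / (e : ℝ)) :=
    Finset.sum_nonneg fun _ _ => mul_nonneg (kw_nonneg _ _) (by positivity)
  have h1 : ∑ p ∈ idx z D, tk3 k l p =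
      (∑ x ∈ Icc 1 z ×ˢ Icc 1 z, dv l (Nat.lcm x.1 x.2)) *
        ((∑ e ∈ Icc 1 D, kw k e * dv l e) * ∑ e ∈ Icc 1 D, kw k e * (1 / (e : ℝ))) +
      (∑ x ∈ Icc 1 z ×ˢ Icc 1 z, dv l (Nat.lcm x.1 x.2)) *
        ((∑ e ∈ Icc 1 D, kw k e * (1 / (e : ℝ))) * ∑ e ∈ Icc 1 D, kw k e * dv l e) +
      (∑ x ∈ Icc 1 z ×ˢ Icc 1 z, 1 / (Nat.lcm x.1 x.2 : ℝ)) *
        ((∑ e ∈ Icc 1 D, kw k e * dv l e) * ∑ e ∈ Icc 1 D, kw k e * dv l e) := by
    rw [← prod3, ← prod3, ← prod3, ← Finset.sum_add_distrib, ← Finset.sum_add_distrib]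
    rfl
  rw [h1]
  have e4 : (4 : ℝ) ^ k = 2 ^ k * 2 ^ k := by rw [← mul_pow]; norm_num
  calc _ ≤ (4 / l * H ^ 4) * ((2 ^ k / l * H ^ (2 ^ k)) * H ^ (2 ^ k)) +
        (4 / l * H ^ 4) * (H ^ (2 ^ k) * (2 ^ k / l * H ^ (2 ^ k))) +
        H ^ 4 * ((2 ^ k / l * H ^ (2 ^ k)) * (2 ^ k / l * H ^ (2 ^ k))) := by gcongr
    _ = (8 * 2 ^ k + 4 ^ k) * H ^ (4 + 2 * 2 ^ k) / (l : ℝ) ^ 2 := by
      rw [e4, pow_add, two_mul (2 ^ k), pow_add]
      field_simp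
      ring

end Pool.Agent.W410.KS
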