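import Pool.Agent.W410.KS.CORK1

/-!
KS project, task CORK, part 2: the bad primes and the single terms.
-/

set_option autoImplicit false

namespace Pool.Agent.W410.KS

open Finset
open Pool.Agent.H442R2
open Pool.Agent.H442R2.KF
open Pool.Agent.W23.DC
open Pool.Agent.W23.SG
open Pool.Agent.W23.PL
open Pool.Agent.W23.KT
open Pool.Agent.W23.KS
open Pool.Agent.H442R2.BX.TaskEX
open Pool.Agent.H442R2.BX.TaskSV
open Pool.Agent.W249.PL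

/-- the product of all the resultants -/
def DK' (S S' : Finset (ℤ × ℕ)) : ℤ :=
  (∏ L ∈ S, L.1) * (∏ L ∈ S', L.1) * ∏ x ∈ S ×ˢ S', (x.1.1 * x.2.2 - x.2.1 * x.1.2)

theorem cross_ne {M N : ℕ} {L L' : ℤ × ℕ} (hL : FoM M N L) (hL' : FoM M N L') (hne : L ≠ L') :
    L.1 * L'.2 - L'.1 * L.2 ≠ 0 := by
  intro h0
  have h1 : L.1 * L'.2 = L'.1 * L.2 := by linarith
  have c1 : IsCoprime L.1 (L.2 : ℤ) := Int.isCoprime_iff_gcd_eq_one.mpr hL.cop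
  have c2 : IsCoprime L'.1 (L'.2 : ℤ) := Int.isCoprime_iff_gcd_eq_one.mpr hL'.cop
  have d1 : (L.2 : ℤ) ∣ L'.2 := by
    have h2 : (L.2 : ℤ) ∣ L.1 * L'.2 := ⟨L'.1, by rw [h1]; ring⟩
    exact c1.symm.dvd_of_dvd_mul_left h2
  have d2 : (L'.2 : ℤ) ∣ L.2 := by
    have h2 : (L'.2 : ℤ) ∣ L'.1 * L.2 := ⟨L.1, by rw [← h1]; ring⟩
    exact c2.symm.dvd_of_dvd_mul_left h2
  have d3 : L.2 = L'.2 := Nat.dvd_antisymm (Int.natCast_dvd_natCast.mp d1)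
    (Int.natCast_dvd_natCast.mp d2)
  have h3 : (L.2 : ℤ) ≠ 0 := by
    have := hL.b1
    omega
  have h4 : L.1 = L'.1 := by
    rw [← d3] at h1
    exact mul_right_cancel₀ h3 h1
  exact hne (Prod.ext h4 d3)

theorem DK'_ne {k M N : ℕ} {S S' : Finset (ℤ × ℕ)} (hS : SysK k M N S) (hS' : SysK k M N S')
    (hd : Disjoint S S') : DK' S S' ≠ 0 := by
  unfold DK'
  refine mul_ne_zero (mul_ne_zero ?_ ?_) ?_
  · exact Finset.prod_ne_zero_iff.mpr hS.nz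
  · exact Finset.prod_ne_zero_iff.mpr hS'.nz
  · refine Finset.prod_ne_zero_iff.mpr fun x hx => ?_
    obtain ⟨h1, h2⟩ := mem_product.mp hx
    exact cross_ne (hS.sys.fo _ h1) (hS'.sys.fo _ h2) fun h =>
      Finset.disjoint_left.mp hd h1 (h ▸ h2)

theorem DK'_le {k M N : ℕ} {S S' : Finset (ℤ × ℕ)} (hS : SysK k M N S)
    (hS' : SysK k M N S') :
    |(DK' S S' : ℝ)| ≤ ((N : ℝ) ^ M) ^ k * ((N : ℝ) ^ M) ^ k * (2 * (N : ℝ) ^ (2 * M)) ^ (k * k) := by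
  unfold DK'
  push_cast
  rw [abs_mul, abs_mul, Finset.abs_prod, Finset.abs_prod, Finset.abs_prod]
  have h1 : ∏ L ∈ S, |(L.1 : ℝ)| ≤ ((N : ℝ) ^ M) ^ k := by
    rw [← hS.sys.card, ← Finset.prod_const]
    exact Finset.prod_le_prod (fun _ _ => abs_nonneg _) fun L hL => (hS.sys.fo L hL).a
  have h2 : ∏ L ∈ S', |(L.1 : ℝ)| ≤ ((N : ℝ) ^ M) ^ k := by
    rw [← hS'.sys.card, ← Finset.prod_const]
    exact Finset.prod_le_prod (fun _ _ => abs_nonneg _) fun L hL => (hS'.sys.fo L hL).a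
  have h3 : ∏ x ∈ S ×ˢ S', |(x.1.1 : ℝ) * x.2.2 - x.2.1 * x.1.2| ≤
      (2 * (N : ℝ) ^ (2 * M)) ^ (k * k) := by
    have h4 : (S ×ˢ S').card = k * k := by rw [card_product, hS.sys.card, hS'.sys.card]
    rw [← h4, ← Finset.prod_const]
    refine Finset.prod_le_prod (fun _ _ => abs_nonneg _) fun x hx => ?_
    obtain ⟨h1, h2⟩ := mem_product.mp hx
    have f1 := hS.sys.fo _ h1
    have f2 := hS'.sys.fo _ h2
    have e1 : |(x.2.2 : ℝ)| = x.2.2 := abs_of_nonneg (by positivity)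
    have e2 : |(x.1.2 : ℝ)| = x.1.2 := abs_of_nonneg (by positivity)
    calc |(x.1.1 : ℝ) * x.2.2 - x.2.1 * x.1.2|
        ≤ |(x.1.1 : ℝ) * x.2.2| + |(x.2.1 : ℝ) * x.1.2| := abs_sub _ _
      _ = |(x.1.1 : ℝ)| * x.2.2 + |(x.2.1 : ℝ)| * x.1.2 := by rw [abs_mul, abs_mul, e1, e2]
      _ ≤ (N : ℝ) ^ M * (N : ℝ) ^ M + (N : ℝ) ^ M * (N : ℝ) ^ M := by
          have a1 := f1.a
          have a2 := f2.a
          have a3 := f1.b2
          have a4 := f2.b2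
          gcongr
      _ = 2 * (N : ℝ) ^ (2 * M) := by rw [two_mul M, pow_add]; ring
  have p1 : 0 ≤ ∏ L ∈ S, |(L.1 : ℝ)| := Finset.prod_nonneg fun _ _ => abs_nonneg _
  have p2 : 0 ≤ ∏ L ∈ S', |(L.1 : ℝ)| := Finset.prod_nonneg fun _ _ => abs_nonneg _
  have p3 : 0 ≤ ∏ x ∈ S ×ˢ S', |(x.1.1 : ℝ) * x.2.2 - x.2.1 * x.1.2| :=
    Finset.prod_nonneg fun _ _ => abs_nonneg _
  exact mul_le_mul (mul_le_mul h1 h2 p2 (by positivity)) h3 p3 (by positivity)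

/-- the constant in the bound for the number of bad primes -/
def cD (k M : ℕ) : ℕ := 2 * (2 * M * k + k * k + 2 * M * (k * k))

theorem card_LK {k M N : ℕ} (hN : 3 ≤ N) (P : Finset ℕ) (hP : ∀ p ∈ P, p.Prime)
    {S S' : Finset (ℤ × ℕ)} (hS : SysK k M N S) (hS' : SysK k M N S') (hd : Disjoint S S') :
    ((P.filter (fun l : ℕ => (l : ℤ) ∣ DK' S S')).card : ℝ) ≤ cD k M * Real.log N := by
  set L := P.filter (fun l : ℕ => (l : ℤ) ∣ DK' S S') with hL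
  set m := (DK' S S').natAbs with hm
  have hm0 : m ≠ 0 := Int.natAbs_ne_zero.mpr (DK'_ne hS hS' hd)
  have h3 : ∏ l ∈ L, l ∣ m := by
    refine Finset.prod_primes_dvd m (fun l hl => (hP l (mem_filter.mp hl).1).prime) fun l hl => ?_
    exact Int.natCast_dvd.mp (mem_filter.mp hl).2
  have h4 : 2 ^ L.card ≤ ∏ l ∈ L, l := by
    rw [← Finset.prod_const]
    exact Finset.prod_le_prod' fun l hl => (hP l (mem_filter.mp hl).1).two_le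
  have h5 : 2 ^ L.card ≤ m := h4.trans (Nat.le_of_dvd (Nat.pos_of_ne_zero hm0) h3)
  have hNr : (3 : ℝ) ≤ N := by exact_mod_cast hN
  have h6 : (m : ℝ) ≤
      ((N : ℝ) ^ M) ^ k * ((N : ℝ) ^ M) ^ k * (2 * (N : ℝ) ^ (2 * M)) ^ (k * k) := by
    have h7 : (m : ℝ) = |(DK' S S' : ℝ)| := by
      rw [hm, Nat.cast_natAbs]
      push_cast
      rfl
    rw [h7]
    exact DK'_le hS hS'
  have h9 : (2 : ℝ) ^ L.card ≤
      ((N : ℝ) ^ M) ^ k * ((N : ℝ) ^ M) ^ k * (2 * (N : ℝ) ^ (2 * M)) ^ (k * k) := by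
    calc (2 : ℝ) ^ L.card ≤ (m : ℝ) := by exact_mod_cast h5
      _ ≤ _ := h6
  have hlog : 1 ≤ Real.log N := by
    rw [Real.le_log_iff_exp_le (by linarith)]
    have := Real.exp_one_lt_d9
    linarith
  have hN0 : (0 : ℝ) < N := by linarith
  have h10 := Real.log_le_log (by positivity) h9
  rw [Real.log_pow, Real.log_mul (by positivity) (by positivity),
    Real.log_mul (by positivity) (by positivity), Real.log_pow, Real.log_pow, Real.log_pow,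
    Real.log_mul (by norm_num) (by positivity), Real.log_pow] at h10
  have h12 := Real.log_two_gt_d9
  have h13 := Real.log_two_lt_d9
  push_cast at h10
  have hc0 : (0 : ℝ) ≤ L.card := by positivity
  have hkk : (0 : ℝ) ≤ (k : ℝ) * k := by positivity
  have h14 : (k : ℝ) * k * Real.log 2 ≤ k * k * Real.log N := by
    apply mul_le_mul_of_nonneg_left _ hkk
    linarith
  have h15 : (L.card : ℝ) * (1 / 2) ≤ L.card * Real.log 2 := by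
    apply mul_le_mul_of_nonneg_left _ hc0
    linarith
  unfold cD
  push_cast
  nlinarith

/-- prime divisors of the product of the forms -/
theorem dvd_Fp {l : ℕ} (hl : l.Prime) {S : Finset (ℤ × ℕ)} {n : ℤ} (h : (l : ℤ) ∣ Fp S n) :
    ∃ L ∈ S, (l : ℤ) ∣ lf L n := by
  unfold Fp at h
  have hp : Prime (l : ℤ) := Nat.prime_iff_prime_int.mp hl
  exact (hp.dvd_finsetProd_iff _).mp h

theorem bad_prime {l : ℕ} (hl : l.Prime) {S S' : Finset (ℤ × ℕ)} {n : ℤ} {q e e' : ℕ}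
    (h1 : (q : ℤ) ∣ n) (h2 : (e : ℤ) ∣ Fp S n) (h3 : (e' : ℤ) ∣ Fp S' n)
    (h : (l ∣ q ∧ l ∣ e) ∨ (l ∣ q ∧ l ∣ e') ∨ (l ∣ e ∧ l ∣ e')) : (l : ℤ) ∣ DK' S S' := by
  unfold DK'
  rcases h with ⟨a, b⟩ | ⟨a, b⟩ | ⟨a, b⟩
  · have j1 : (l : ℤ) ∣ n := (Int.natCast_dvd_natCast.mpr a).trans h1
    obtain ⟨L, hL, j2⟩ := dvd_Fp hl ((Int.natCast_dvd_natCast.mpr b).trans h2)
    unfold lf at j2
    have j3 : (l : ℤ) ∣ L.1 := (Int.dvd_add_left (j1.mul_left _)).mp j2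
    exact ((j3.trans (Finset.dvd_prod_of_mem _ hL)).mul_right _).mul_right _
  · have j1 : (l : ℤ) ∣ n := (Int.natCast_dvd_natCast.mpr a).trans h1
    obtain ⟨L, hL, j2⟩ := dvd_Fp hl ((Int.natCast_dvd_natCast.mpr b).trans h3)
    unfold lf at j2
    have j3 : (l : ℤ) ∣ L.1 := (Int.dvd_add_left (j1.mul_left _)).mp j2
    exact ((j3.trans (Finset.dvd_prod_of_mem _ hL)).mul_left _).mul_right _
  · obtain ⟨L, hL, j2⟩ := dvd_Fp hl ((Int.natCast_dvd_natCast.mpr a).trans h2)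
    obtain ⟨L', hL', j3⟩ := dvd_Fp hl ((Int.natCast_dvd_natCast.mpr b).trans h3)
    unfold lf at j2 j3
    have j4 : (l : ℤ) ∣ L.1 * L'.2 - L'.1 * L.2 := by
      have := dvd_sub (j2.mul_right (L'.2 : ℤ)) (j3.mul_right (L.2 : ℤ))
      have e0 : (L.1 + (L.2 : ℤ) * n) * L'.2 - (L'.1 + (L'.2 : ℤ) * n) * L.2 =
          L.1 * L'.2 - L'.1 * L.2 := by ring
      rwa [e0] at this
    exact (j4.trans (Finset.dvd_prod_of_mem
      (fun x : (ℤ × ℕ) × (ℤ × ℕ) => x.1.1 * (x.2.2 : ℤ) - x.2.1 * (x.1.2 : ℤ))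
      (mem_product.mpr ⟨hL, hL'⟩ : (L, L') ∈ S ×ˢ S'))).mul_left _

/-- the single term, coprime moduli -/
theorem cop_bdK : ∃ N₀ : ℕ, ∀ N : ℕ, N₀ ≤ N → ∀ (S S' : Finset (ℤ × ℕ)) (q d d' : ℕ)
    (Ω Ω' : Finset ℕ), (∀ s ∈ Ω, s < d) → (∀ n : ℤ, (d : ℤ) ∣ Fp S n ↔ ∃ s ∈ Ω, (d : ℤ) ∣ n - s) →
    (∀ s ∈ Ω', s < d') → (∀ n : ℤ, (d' : ℤ) ∣ Fp S' n ↔ ∃ s ∈ Ω', (d' : ℤ) ∣ n - s) →
    1 ≤ q → 1 ≤ d → 1 ≤ d' → Nat.Coprime q d → Nat.Coprime q d' → Nat.Coprime d d' →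
    ((q : ℝ) * d * d') * Real.log N ≤ N → 3 ≤ N →
    |SK N S S' q d d' - (Ω.card : ℝ) * Ω'.card * ((N : ℝ) / (q * d * d'))| ≤
      (Ω.card : ℝ) * Ω'.card * (1 / (N : ℝ) ^ 5) := by
  obtain ⟨N₀, hN₀⟩ := cop_bd
  refine ⟨N₀, fun N hN S S' q d d' Ω Ω' h1 h2 h3 h4 hq hd hd' c1 c2 c3 hlog hN3 => ?_⟩
  rw [SK_eq N (by omega) S S' q d d' Ω Ω' h1 h2 h3 h4]
  have h5 : (Ω.card : ℝ) * Ω'.card * ((N : ℝ) / (q * d * d')) =
      ∑ x ∈ Ω ×ˢ Ω', (N : ℝ) / (q * d * d') := by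
    rw [Finset.sum_const, card_product, nsmul_eq_mul]
    push_cast
    rfl
  have h6 : (Ω.card : ℝ) * Ω'.card * (1 / (N : ℝ) ^ 5) =
      ∑ x ∈ Ω ×ˢ Ω', 1 / (N : ℝ) ^ 5 := by
    rw [Finset.sum_const, card_product, nsmul_eq_mul]
    push_cast
    rfl
  rw [h5, h6, ← Finset.sum_sub_distrib]
  refine (Finset.abs_sum_le_sum_abs _ _).trans (Finset.sum_le_sum fun x _ => ?_)
  exact hN₀ N hN x.1 x.2 q d d' hq hd hd' c1 c2 c3 hlog hN3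

theorem SK_nonneg (N : ℕ) (S S' : Finset (ℤ × ℕ)) (q e e' : ℕ) : 0 ≤ SK N S S' q e e' := by
  unfold SK
  refine tsum_nonneg fun n => ?_
  have h1 := Wt_pos N n
  have h2 : ∀ (m : ℕ) (n : ℤ), 0 ≤ II m n := fun m n => by unfold II; split_ifs <;> norm_num
  have a1 := h2 q n
  have a2 := h2 e (Fp S n)
  have a3 := h2 e' (Fp S' n)
  positivity

theorem SK_zero (N : ℕ) (S S' : Finset (ℤ × ℕ)) (q e e' : ℕ)
    (h : ¬ ∃ n : ℤ, (q : ℤ) ∣ n ∧ (e : ℤ) ∣ Fp S n ∧ (e' : ℤ) ∣ Fp S' n) :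
    SK N S S' q e e' = 0 := by
  unfold SK
  have h1 : ∀ n : ℤ, Wt N n * (II q n * II e (Fp S n) * II e' (Fp S' n)) = 0 := by
    intro n
    by_cases a : (q : ℤ) ∣ n
    · by_cases b : (e : ℤ) ∣ Fp S n
      · have c : ¬ (e' : ℤ) ∣ Fp S' n := fun c => h ⟨n, a, b, c⟩
        have : II e' (Fp S' n) = 0 := if_neg c
        rw [this]; ring
      · have : II e (Fp S n) = 0 := if_neg b
        rw [this]; ring
    · have : II q n = 0 := if_neg a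
      rw [this]; ring
  rw [tsum_congr h1, tsum_zero]

/-- the single term, general bound -/
theorem SK_le (hGS : BX.St_GS) (N : ℕ) (hN : 1 ≤ N) (S S' : Finset (ℤ × ℕ)) (q e e' : ℕ)
    (Ω Ω' : Finset ℕ) (h1 : ∀ s ∈ Ω, s < e)
    (h2 : ∀ n : ℤ, (e : ℤ) ∣ Fp S n ↔ ∃ s ∈ Ω, (e : ℤ) ∣ n - s)
    (h1' : ∀ s ∈ Ω', s < e') (h2' : ∀ n : ℤ, (e' : ℤ) ∣ Fp S' n ↔ ∃ s ∈ Ω', (e' : ℤ) ∣ n - s)
    (hm : 1 ≤ m3 q e e') (hmN : (m3 q e e' : ℝ) ≤ N) :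
    SK N S S' q e e' ≤ (Ω.card : ℝ) * Ω'.card * (8 * (N : ℝ) / (m3 q e e' : ℕ)) := by
  rw [SK_eq N hN S S' q e e' Ω Ω' h1 h2 h1' h2']
  have h6 : (Ω.card : ℝ) * Ω'.card * (8 * (N : ℝ) / (m3 q e e' : ℕ)) =
      ∑ x ∈ Ω ×ˢ Ω', 8 * (N : ℝ) / (m3 q e e' : ℕ) := by
    rw [Finset.sum_const, card_product, nsmul_eq_mul]
    push_cast
    rfl
  rw [h6]
  refine Finset.sum_le_sum fun x _ => ?_
  have hM0 : (0 : ℝ) < m3 q e e' := by exact_mod_cast hm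
  have h7 : (1 : ℝ) ≤ N / (m3 q e e' : ℕ) := by
    rw [le_div_iff₀ hM0]; linarith
  by_cases hsol : ∃ n : ℤ, (q : ℤ) ∣ n ∧ (e : ℤ) ∣ n - (x.1 : ℤ) ∧ (e' : ℤ) ∣ n - (x.2 : ℤ)
  · obtain ⟨n, k1, k2, k3⟩ := hsol
    refine (SE_le hGS N hN x.1 x.2 q e e' hm n k1 k2 k3).trans ?_
    rw [mul_div_assoc]
    linarith
  · rw [SE_zero N x.1 x.2 q e e' hsol]
    positivity

end Pool.Agent.W410.KS
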